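import Pool.Agent.helper26.T5.SpecA

/-!
# Row `LRS` of project T5 (MP_16912e_nt)

If `2 φ - 2 η` is close to a multiple of `π` then `φ - η` is close to a multiple of `π / 2`.
-/

namespace Pool.Agent.helper55.T5

open Pool.Agent.helper26.T5

/-- The real inequality behind row `LRS`. -/
theorem LRS_real (x y r κ : ℝ) (hr : 0 ≤ r) (hrr : r ^ 2 = x ^ 2 + y ^ 2) (hκ : 0 ≤ κ)
    (h : 2 * (|x| * |y|) ≤ κ * r ^ 2) : |y| ≤ κ * r ∨ |x| ≤ κ * r := by
  by_contra hcon
  push Not at hcon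
  obtain ⟨hy, hx⟩ := hcon
  have hκr : 0 ≤ κ * r := mul_nonneg hκ hr
  have hx0 : 0 < |x| := lt_of_le_of_lt hκr hx
  have hy0 : 0 < |y| := lt_of_le_of_lt hκr hy
  have hrr' : r ^ 2 = |x| ^ 2 + |y| ^ 2 := by rw [sq_abs, sq_abs]; exact hrr
  have hrpos : 0 < r := by
    rcases hr.lt_or_eq with h0 | h0
    · exact h0
    · exfalso
      rw [← h0] at hrr'
      nlinarith [sq_nonneg |y|, mul_pos hx0 hx0]
  rcases le_total |y| |x| with hxy | hxy
  · have h2 : r ≤ 2 * |x| := by
      by_contra hc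
      push Not at hc
      nlinarith
    nlinarith [mul_lt_mul_of_pos_left hy hrpos, mul_le_mul_of_nonneg_right h2 hy0.le]
  · have h2 : r ≤ 2 * |y| := by
      by_contra hc
      push Not at hc
      nlinarith
    nlinarith [mul_lt_mul_of_pos_left hx hrpos, mul_le_mul_of_nonneg_right h2 hx0.le]

/-- Row `LRS` of project T5. -/
theorem lrs : LRS := by
  intro u z κ hu hκ h
  set w : ℂ := (starRingEnd ℂ) u * z with hw
  have hnorm : ‖w‖ = ‖z‖ := by
    rw [hw, norm_mul, RCLike.norm_conj, hu, one_mul]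
  have hsq : (starRingEnd ℂ) (u ^ 2) * z ^ 2 = w ^ 2 := by
    rw [hw, map_pow]; ring
  have him : ((starRingEnd ℂ) (u * Complex.I) * z).im = - w.re := by
    have : (starRingEnd ℂ) (u * Complex.I) * z = - Complex.I * w := by
      rw [hw, map_mul, Complex.conj_I]; ring
    rw [this]
    simp
  have himsq : (w ^ 2).im = 2 * (w.re * w.im) := by
    rw [pow_two, Complex.mul_im]; ring
  have hr : ‖z‖ ^ 2 = w.re ^ 2 + w.im ^ 2 := by
    rw [← hnorm, ← Complex.normSq_eq_norm_sq, Complex.normSq_apply]; ring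
  rw [hsq, himsq, abs_mul, abs_mul, abs_two] at h
  rw [him, abs_neg]
  exact LRS_real w.re w.im ‖z‖ κ (norm_nonneg z) hr hκ h

end Pool.Agent.helper55.T5
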