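import Pool.Agent.helper8.T5.SpecU

/-!
# Row `UMK` of project T5 (MP_16912e_nt): Minkowski for the square of an ideal
-/

namespace Pool.Agent.T5

open Finset NumberField Pool.Agent.helper3.FT Pool.Agent.helper47.RA

/-- Row `UMK` of project T5. -/
theorem UMK : UMK_stmt := by
  intro K _ _ Q hD a ha
  have hDneg : (Q.D : ℝ) < 0 := by exact_mod_cast hD
  have hpos : 0 < Ideal.absNorm a := by
    rw [Nat.pos_iff_ne_zero]
    intro h0
    exact ha (Ideal.absNorm_eq_zero_iff.1 h0)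
  have hNpos : (0 : ℝ) < (Ideal.absNorm a : ℝ) := by exact_mod_cast hpos
  have hsq : Ideal.absNorm (a ^ 2) = Ideal.absNorm a ^ 2 := map_pow _ _ _
  have hpos2 : 0 < Ideal.absNorm (a ^ 2) := by
    rw [hsq]
    exact pow_pos hpos 2
  have hDabs : |(Q.D : ℝ)| = -(Q.D : ℝ) := abs_of_neg hDneg
  have hsD : 0 < √(-(Q.D : ℝ)) := Real.sqrt_pos.2 (by linarith)
  have h4 : 0 < 4 * √(-(Q.D : ℝ)) := by positivity
  set A : ℝ := √(4 * √(-(Q.D : ℝ))) * (Ideal.absNorm a : ℝ) with hA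
  have hApos : 0 < A := mul_pos (Real.sqrt_pos.2 h4) hNpos
  have hAA : A ^ 2 = (Ideal.absNorm a : ℝ) ^ 2 * (4 * √(-(Q.D : ℝ))) := by
    rw [hA, mul_pow, Real.sq_sqrt h4.le, mul_comm]
  obtain ⟨x, hx, hx0, hv1, -⟩ := Q.hmink (a ^ 2) hpos2 A A hApos hApos (by
    rw [← pow_two, hAA, hDabs, hsq]
    push_cast
    exact le_of_eq (mul_comm _ _)) (fun _ => rfl)
  refine ⟨x, hx, hx0, ?_⟩
  rw [← hAA]
  exact pow_le_pow_left₀ (Q.v₁_nonneg x) hv1 2

end Pool.Agent.T5
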